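import Pool.Agent.V11202.GM.Ex1b
import Pool.Agent.V11202.GM.Bundled

set_option autoImplicit false

open scoped Manifold ContDiff Topology
open Module Metric Pool.Agent.V11202.GM

namespace Pool.Agent.Results.MP_d84343_gt.LinearSphere

/-- There is a closed connected `10`-manifold `M` with a smooth action of a compact Lie group `G`,
with finitely many non-principal orbits, exactly one singular orbit and cohomogeneity `7`, which
carries a `G`-invariant Riemannian metric of positive Ricci curvature. -/
theorem result :
    ∃ X : GMan 10, X.FinitelyManyNonPrincipal ∧ (∃! O, O ∈ X.singular) ∧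
      X.HasCohomogeneity 7 ∧ ∃ g : X.Metric, X.Invariant g ∧ X.PositiveRicci g := by
  refine ⟨{ EG := EuclideanSpace ℝ (Fin 3), HG := EuclideanSpace ℝ (Fin 3), IG := 𝓡 3,
            G := Sp1, compactG := inferInstance, t2G := inferInstance, M := M1,
            compactM := inferInstance, t2M := inferInstance, connM := connected_M1,
            smooth := L1.contMDiff }, ?_, ?_, ⟨⟨p1, principal_gen p1_gen⟩, ?_⟩,
    (roundMetric 1 one_pos : Bundle.ContMDiffRiemannianMetric (𝓡 10) ∞
      (EuclideanSpace ℝ (Fin 10)) (fun x : M1 => TangentSpace (𝓡 10) x)),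
    L1.isInvariant 1 one_pos, posRicci_round (by norm_num) 1 one_pos⟩
  · show (nonPrincipalOrbits Sp1 M1).Finite
    rw [nonPrincipal_eq]
    exact Set.finite_singleton O1
  · show ∃! O : Set M1, O ∈ singularOrbits (𝓡 3) (𝓡 10) Sp1 M1
    rw [singular_eq]
    exact ⟨O1, rfl, fun O hO => hO⟩
  · intro p hp
    have hpg : Gen p := by
      by_contra h
      exact not_principal h hp
    exact congrArg (· + 7) (dim_gen hpg)

end Pool.Agent.Results.MP_d84343_gt.LinearSphere
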